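import Pool.Agent.H38.Ces.Proof

open Filter Topology Pool.Agent.H38.Ces

theorem Pool.Agent.Results.MP_d594f7_lc.Neg.result :
    ∃ f : ℕ → Inf → ℝ, (∀ n, Continuous (f n)) ∧ (∀ n x, f n x ∈ Set.Icc (0 : ℝ) 1) ∧
      ∀ φ ψ : ℕ → ℕ, StrictMono φ → StrictMono ψ →
        ¬ RamseyNull {x | ¬ ∃ l : ℝ, Tendsto
          (fun k => (∑ m ∈ Finset.range (ψ k), f (φ m) x) / (ψ k : ℝ)) atTop (𝓝 l)} := by
  refine ⟨par, par_cont, par_mem, fun φ ψ hφ hψ h => ?_⟩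
  obtain ⟨B, -, hB, hd⟩ := h ∅ Set.univ Set.infinite_univ (by simp)
  obtain ⟨x, hx, hx'⟩ := diverge φ ψ hφ hψ B hB
  exact Set.disjoint_left.1 hd hx hx'
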